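import Pool.Agent.H.MP_a5b0d0_al.D

namespace Pool.Agent.Results.MP_a5b0d0_al.No

open Pool.Agent.H.MP_a5b0d0_al Lt Pool.Agent.Lib.helper21 List

theorem fin {S T : Type} [Finite S] [Finite T] : Finite (Lt S T) :=
  .of_surjective (α := Fin 6 ⊕ S ⊕ T) (Sum.elim ![Z, A, M, B, y, H] (Sum.elim lr rl)) fun x => by
    cases x
    exacts [⟨.inl 0, rfl⟩, ⟨.inl 1, rfl⟩, ⟨.inl 2, rfl⟩, ⟨.inl 3, rfl⟩, ⟨.inl 4, rfl⟩,
      ⟨.inl 5, rfl⟩, ⟨.inr (.inl _), rfl⟩, ⟨.inr (.inr _), rfl⟩]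

theorem result : ∃ (α : Type) (_ : Finite α) (_ : Primcodable α) (R : Set (List α × List α)),
    R.Finite ∧ (∀ r ∈ R, r.2.length < r.1.length) ∧ Confluent R ∧
      ¬ ComputablePred fun p : List α × List α => CConj (cls R p.1) (cls R p.2) := by
  obtain ⟨Q, _, C, q, hC⟩ := Queue.exists_cm0
  have := Fintype.ofFinite Q
  have : NeZero (PP C) := ⟨(PP_pos C).ne'⟩
  have := fin (S := (Q ⊕ Fin 3) × ZMod (PP C)) (T := Option Bool × Option Q × (Q ⊕ Fin 3))
  let _ := Primcodable.ofEquiv _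
    (Finite.equivFin (Lt ((Q ⊕ Fin 3) × ZMod (PP C)) (Option Bool × Option Q × (Q ⊕ Fin 3))))
  have hl : ∀ r ∈ wz (RR (mc C q)) Z, r.2.length < r.1.length := by
    rintro r (h | ⟨c, rfl | rfl⟩)
    · exact RR_len r h
    all_goals simp
  refine ⟨_, this, inferInstance, wz (RR (mc C q)) Z, ?_, hl, wz_conf orth.conf RR_z,
    fun h => hC ?_⟩
  · have f := List.finite_length_lt (Lt ((Q ⊕ Fin 3) × ZMod (PP C))
      (Option Bool × Option Q × (Q ⊕ Fin 3))) (PP C + 5)
    have : ∀ r ∈ wz (RR (mc C q)) Z, r.1.length < PP C + 5 := by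
      rintro ⟨_, z⟩ (⟨l, c, t, h, rfl⟩ | ⟨c, ⟨⟨⟩⟩ | ⟨⟨⟩⟩⟩)
      · cases h with
        | rl t =>
          have := Nat.le_of_dvd (PP_pos C) (pr_dvd C t.2.1)
          simp only [mc, length_append, length_replicate, length_singleton]
          split_ifs <;> omega
        | _ => simp [mc]
      all_goals simp
    exact (f.prod f).subset fun r h => ⟨this r h, (hl r h).trans (this r h)⟩
  · have hr : Primrec fun n : ℕ => replicate (n + 1) (y : Lt ((Q ⊕ Fin 3) × ZMod (PP C))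
        (Option Bool × Option Q × (Q ⊕ Fin 3))) :=
      (Primrec.list_map (Primrec.list_range.comp Primrec.succ) (Primrec.const y).to₂).of_eq
        fun n => by simp
    obtain ⟨f, hf, hf'⟩ := ComputablePred.computable_iff.1 h.not
    refine ComputablePred.computable_iff.2 ⟨_, hf.comp ((Primrec.list_cons.comp (.const H) hr).pair
      (Primrec.list_append.comp hr (.const [H]))).to_comp, funext fun n => ?_⟩
    rw [← congrFun hf' _, conj_iff, main, not_not]

end Pool.Agent.Results.MP_a5b0d0_al.No
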